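import Pool.Agent.R283.TI.Main

namespace Pool.Agent.Results.MP_b9f29c_an.NotLocallyTypeI

open Pool.Agent.R283.TI

/-- There is a unital, separable, nuclear, stably finite C*-algebra which is not locally
approximable by type I C*-subalgebras. -/
theorem result : ∃ (A : Type) (_ : CStarAlgebra A), TopologicalSpace.SeparableSpace A ∧
    IsNuclear A ∧ StablyFinite A ∧ ¬ IsLocallyTypeI A := main_short

end Pool.Agent.Results.MP_b9f29c_an.NotLocallyTypeI
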